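import Pool.Agent.HIP.Stmts

/-! HIP, row FNI: the monodromy group of the specialised representation, with power saving. -/

set_option autoImplicit false

namespace Pool.Agent.HIP.H13

open Polynomial NumberField Matrix Pool.Agent.MTL Pool.Agent.MTL.H34 Pool.Agent.Helper78_MT
  Pool.Agent.HIK

universe u

/-- row FNI -/
theorem fni (sri : SriStmt) : FniStmt.{u} := by
  intro K _ _ d _ _ ℓ _ ρ hρ
  obtain ⟨S, hS, h⟩ := sri K d ℓ ρ hρ
  refine ⟨S, hS, fun a ha ψ ρa hsp F _ _ => ?_⟩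
  obtain ⟨h1, h2⟩ := h a ha ψ ρa hsp
  exact monA d ℚ_[ℓ] GT (Stab (ψ a)) ρ ρa h1 h2 F

end Pool.Agent.HIP.H13
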