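import Pool.Agent.HIP.Stmts

/-! HIP, row PZD: countably many sets with the same power saving. -/

set_option autoImplicit false

namespace Pool.Agent.HIP.H13

open Polynomial NumberField Matrix Pool.Agent.MTL Pool.Agent.MTL.H34 Pool.Agent.Helper78_MT
  Pool.Agent.HIK

theorem geom (n : ℕ) : ∑ l ∈ Finset.range n, (1 / 2 : ℝ) ^ (l + 1) = 1 - (1 / 2 : ℝ) ^ n := by
  induction n with
  | zero => simp
  | succ n ih =>
    rw [Finset.sum_range_succ, ih]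
    ring

/-- row PZD -/
theorem pzd : PzdStmt := by
  classical
  intro K _ _ δ δ' hδ S hS
  choose C hC using hS
  have hN : ∀ l : ℕ, ∃ N : ℕ, l + 1 ≤ N ∧
      max (C l) 0 * 2 ^ (l + 1) ≤ (N : ℝ) ^ (δ - δ') := by
    intro l
    have h1 : Filter.Tendsto (fun x : ℝ => x ^ (δ - δ')) Filter.atTop Filter.atTop :=
      tendsto_rpow_atTop (by linarith)
    have h2 : Filter.Tendsto (fun n : ℕ => (n : ℝ) ^ (δ - δ')) Filter.atTop Filter.atTop :=
      h1.comp tendsto_natCast_atTop_atTop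
    have h3 := (h2.eventually_ge_atTop (max (C l) 0 * 2 ^ (l + 1))).and
      (Filter.eventually_ge_atTop (l + 1))
    obtain ⟨N, h4, h5⟩ := h3.exists
    exact ⟨N, h5, h4⟩
  choose N hN1 hN2 using hN
  refine ⟨{a | ∃ l, a ∈ S l ∧ (N l : ℝ) ≤ house (a : K)}, N, ?_, fun l a ha hl => ⟨l, ha, hl⟩⟩
  refine ⟨1, ?_⟩
  intro X hX
  have hX0 : (0 : ℝ) < X := by exact_mod_cast hX
  obtain ⟨_, hbox⟩ := boxA K
  have hfin : {a : 𝓞 K | house (a : K) ≤ X}.Finite := (hbox X).1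
  have hfinl : ∀ l, {a : 𝓞 K | a ∈ S l ∧ house (a : K) ≤ X}.Finite :=
    fun l => hfin.subset (fun a ha => ha.2)
  have hsub : {a : 𝓞 K | a ∈ {a : 𝓞 K | ∃ l, a ∈ S l ∧ (N l : ℝ) ≤ house (a : K)} ∧
      house (a : K) ≤ X} ⊆ ⋃ l ∈ (Finset.range X).filter (fun l => N l ≤ X),
        {a : 𝓞 K | a ∈ S l ∧ house (a : K) ≤ X} := by
    rintro a ⟨⟨l, hl, hNl⟩, ha⟩
    have h1 : N l ≤ X := by
      have : (N l : ℝ) ≤ X := hNl.trans ha
      exact_mod_cast this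
    have h2 : l < X := lt_of_lt_of_le (Nat.lt_succ_self l) ((hN1 l).trans h1)
    simp only [Set.mem_iUnion, Finset.mem_filter, Finset.mem_range]
    exact ⟨l, ⟨h2, h1⟩, hl, ha⟩
  have hcard : Nat.card {a : 𝓞 K // a ∈ {a : 𝓞 K | ∃ l, a ∈ S l ∧ (N l : ℝ) ≤ house (a : K)} ∧
      house (a : K) ≤ X} ≤ ∑ l ∈ (Finset.range X).filter (fun l => N l ≤ X),
        Nat.card {a : 𝓞 K // a ∈ S l ∧ house (a : K) ≤ X} := by
    have hfinU : (⋃ l ∈ (Finset.range X).filter (fun l => N l ≤ X),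
        {a : 𝓞 K | a ∈ S l ∧ house (a : K) ≤ X}).Finite := by
      apply Set.Finite.biUnion (Finset.finite_toSet _)
      intro l _
      exact hfinl l
    have h1 := Set.ncard_le_ncard hsub hfinU
    have h2 := Finset.set_ncard_biUnion_le ((Finset.range X).filter (fun l => N l ≤ X))
      (fun l => {a : 𝓞 K | a ∈ S l ∧ house (a : K) ≤ X})
    exact h1.trans h2
  have hterm : ∀ l ∈ (Finset.range X).filter (fun l => N l ≤ X),
      (Nat.card {a : 𝓞 K // a ∈ S l ∧ house (a : K) ≤ X} : ℝ) ≤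
        (1 / 2 : ℝ) ^ (l + 1) * (X : ℝ) ^ ((Module.finrank ℚ K : ℝ) - δ') := by
    intro l hl
    have hNX : N l ≤ X := (Finset.mem_filter.mp hl).2
    have h1 := hC l X hX
    have h2 : C l * (X : ℝ) ^ ((Module.finrank ℚ K : ℝ) - δ) ≤
        max (C l) 0 * (X : ℝ) ^ ((Module.finrank ℚ K : ℝ) - δ) :=
      mul_le_mul_of_nonneg_right (le_max_left _ _) (Real.rpow_nonneg hX0.le _)
    have h3 : max (C l) 0 = (1 / 2 : ℝ) ^ (l + 1) * (max (C l) 0 * 2 ^ (l + 1)) := by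
      rw [one_div, inv_pow]
      field_simp
    have h4 : max (C l) 0 * 2 ^ (l + 1) ≤ (X : ℝ) ^ (δ - δ') := by
      refine (hN2 l).trans ?_
      apply Real.rpow_le_rpow (Nat.cast_nonneg _) (by exact_mod_cast hNX) (by linarith)
    have h5 : max (C l) 0 ≤ (1 / 2 : ℝ) ^ (l + 1) * (X : ℝ) ^ (δ - δ') := by
      rw [h3]
      exact mul_le_mul_of_nonneg_left h4 (by positivity)
    have h6 : max (C l) 0 * (X : ℝ) ^ ((Module.finrank ℚ K : ℝ) - δ) ≤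
        (1 / 2 : ℝ) ^ (l + 1) * (X : ℝ) ^ (δ - δ') *
          (X : ℝ) ^ ((Module.finrank ℚ K : ℝ) - δ) :=
      mul_le_mul_of_nonneg_right h5 (Real.rpow_nonneg hX0.le _)
    have h7 : (1 / 2 : ℝ) ^ (l + 1) * (X : ℝ) ^ (δ - δ') *
          (X : ℝ) ^ ((Module.finrank ℚ K : ℝ) - δ) =
        (1 / 2 : ℝ) ^ (l + 1) * (X : ℝ) ^ ((Module.finrank ℚ K : ℝ) - δ') := by
      rw [mul_assoc, ← Real.rpow_add hX0]
      congr 2
      ring
    linarith
  have hsum : ∑ l ∈ (Finset.range X).filter (fun l => N l ≤ X), (1 / 2 : ℝ) ^ (l + 1) ≤ 1 := by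
    have h1 : ∑ l ∈ (Finset.range X).filter (fun l => N l ≤ X), (1 / 2 : ℝ) ^ (l + 1) ≤
        ∑ l ∈ Finset.range X, (1 / 2 : ℝ) ^ (l + 1) :=
      Finset.sum_le_sum_of_subset_of_nonneg (Finset.filter_subset _ _)
        (fun _ _ _ => by positivity)
    rw [geom] at h1
    have h2 : (0 : ℝ) < (1 / 2 : ℝ) ^ X := by positivity
    linarith
  calc (Nat.card {a : 𝓞 K // a ∈ {a : 𝓞 K | ∃ l, a ∈ S l ∧ (N l : ℝ) ≤ house (a : K)} ∧
      house (a : K) ≤ X} : ℝ)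
      ≤ ((∑ l ∈ (Finset.range X).filter (fun l => N l ≤ X),
        Nat.card {a : 𝓞 K // a ∈ S l ∧ house (a : K) ≤ X} : ℕ) : ℝ) := by exact_mod_cast hcard
    _ = ∑ l ∈ (Finset.range X).filter (fun l => N l ≤ X),
        (Nat.card {a : 𝓞 K // a ∈ S l ∧ house (a : K) ≤ X} : ℝ) := by push_cast; rfl
    _ ≤ ∑ l ∈ (Finset.range X).filter (fun l => N l ≤ X),
        (1 / 2 : ℝ) ^ (l + 1) * (X : ℝ) ^ ((Module.finrank ℚ K : ℝ) - δ') :=
      Finset.sum_le_sum hterm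
    _ = (∑ l ∈ (Finset.range X).filter (fun l => N l ≤ X), (1 / 2 : ℝ) ^ (l + 1)) *
        (X : ℝ) ^ ((Module.finrank ℚ K : ℝ) - δ') := by rw [Finset.sum_mul]
    _ ≤ 1 * (X : ℝ) ^ ((Module.finrank ℚ K : ℝ) - δ') :=
      mul_le_mul_of_nonneg_right hsum (Real.rpow_nonneg hX0.le _)

end Pool.Agent.HIP.H13
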